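import Mathlib
import Pool.Agent.W301.SS.Avg

/-!
# Primes in short intervals to the right of the translates of sets of integers with restricted digits

Interface: the definitions and the statements of the pieces.
-/

set_option autoImplicit false

namespace Pool.Agent.K1H84.RD

open Finset Filter
open Pool.Agent.W301.SS
open Pool.Agent.H807R2.Dav

/-- the integers `d 0 + d 1 g + ... + d (k - 1) g ^ (k - 1)` with `d i ∈ D i` -/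
def dset (g : ℕ) (D : ℕ → Finset ℕ) : ℕ → Finset ℕ
  | 0 => {0}
  | k + 1 => ((dset g D k) ×ˢ (D k)).image (fun x => x.1 + x.2 * g ^ k)

/-- `F i` is a majorant of the exponential sum over the digits `D i`, robust under shifts by at most `2 / g` -/
structure Maj (g : ℕ) (D : ℕ → Finset ℕ) (F : ℕ → ℝ → ℝ) (δ : ℝ) : Prop where
  sub : ∀ i, D i ⊆ range g
  ne : ∀ i, (D i).Nonempty
  per : ∀ i x, F i (x + 1) = F i x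
  bd : ∀ i x s, |s| ≤ 2 / (g : ℝ) → ‖FA (D i) (x + s)‖ ≤ F i x
  sum : ∀ i x, ∑ j ∈ range g, F i (x + (j : ℝ) / g) ≤ (g : ℝ) ^ δ * (D i).card

/-- RD1: basic facts on `dset` (`M = g ^ (k + 1)` is the modulus that will be used). -/
def S_DSET : Prop := ∀ (g : ℕ) (D : ℕ → Finset ℕ), 2 ≤ g → (∀ i, D i ⊆ range g) →
  (∀ k, ∀ s ∈ dset g D k, s < g ^ k) ∧
  (∀ k, (dset g D k).card = ∏ i ∈ range k, (D i).card) ∧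
  (∀ k x, FA (dset g D k) x = ∏ i ∈ range k, FA (D i) ((g : ℝ) ^ i * x)) ∧
  (∀ k w, w ≤ k → ((dset g D k).filter (fun s => s < g ^ (k - w))).card ≤ ∏ i ∈ range (k - w), (D i).card)

/-- RD2: the shell lemma. -/
def S_SHELL : Prop := ∀ (g : ℕ) (D : ℕ → Finset ℕ) (F : ℕ → ℝ → ℝ) (δ : ℝ), 2 ≤ g → 0 ≤ δ → Maj g D F δ →
  ∀ k Q m u : ℕ, 1 ≤ Q → 2 * Q ^ 2 ≤ g ^ m → m + u ≤ k + 1 →
    ∑ q ∈ Icc 1 Q, ∑ a ∈ (range q).filter (fun a => Nat.Coprime a q), ∑ j ∈ Icc (-((g ^ u : ℕ) : ℤ)) ((g ^ u : ℕ) : ℤ),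
      ‖FA (dset g D k) ((((a * g ^ (k + 1) / q : ℕ) : ℝ) + (j : ℝ)) / ((g ^ (k + 1) : ℕ) : ℝ))‖ ≤
      4 * (g : ℝ) ^ 2 * (g : ℝ) ^ (δ * (m + u)) * (dset g D k).card

/-- RD3: the full `L¹` norm. -/
def S_L1 : Prop := ∀ (g : ℕ) (D : ℕ → Finset ℕ) (F : ℕ → ℝ → ℝ) (δ : ℝ), 2 ≤ g → 0 ≤ δ → Maj g D F δ →
  ∀ k : ℕ, ∑ r ∈ range (g ^ (k + 1)), ‖FA (dset g D k) ((r : ℝ) / ((g ^ (k + 1) : ℕ) : ℝ))‖ ≤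
    (g : ℝ) * (g : ℝ) ^ (δ * k) * (dset g D k).card

/-- RD4: Vinogradov's bound with the decay away from the rational point. -/
def S_SP : Prop := ∃ C : ℝ, 0 < C ∧ ∀ N q : ℕ, 1 ≤ N → 1 ≤ q → (q : ℝ) ≤ √(N : ℝ) → ∀ a : ℤ, IsCoprime a (q : ℤ) →
  ∀ α : ℝ, |α - a / q| ≤ 1 / ((q : ℝ) * √(N : ℝ)) →
    ‖SP N α‖ ≤ C * (1 + Real.log N) ^ 7 * ((N : ℝ) ^ (4 / 5 : ℝ) + N / √((q : ℝ) * (1 + N * |α - a / q|)))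

/-- RD5: the kernel. -/
def S_KER : Prop := ∀ (H H1 : ℕ), 1 ≤ H → H ≤ H1 → ∀ x : ℝ,
  ‖FK H x / H - FK H1 x / H1‖ ≤ 2 ∧
  (∀ n : ℤ, ‖FK H x / H - FK H1 x / H1‖ ≤ 4 * Real.pi * (H1 * |x - n|)) ∧
  (∀ (q : ℕ) (a : ℤ), 2 ≤ q → IsCoprime a (q : ℤ) → |x - a / q| ≤ 1 / (2 * (q : ℝ)) →
    ‖FK H x / H - FK H1 x / H1‖ ≤ 3 * q / H)

/-- RD6: the sum over all frequencies. -/
def S_MAIN : Prop := ∀ (g : ℕ) (δ : ℝ), 4 ≤ g → 0 ≤ δ → δ < 1 / 5 → ∀ A : ℕ, ∃ B K k₀ : ℕ, ∀ k : ℕ, k₀ ≤ k →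
  ∀ (D : ℕ → Finset ℕ) (F : ℕ → ℝ → ℝ), Maj g D F δ → ∀ M : ℕ, M = g ^ (k + 1) → ∀ H H1 : ℕ, 1 ≤ H →
    Real.log M ^ K ≤ H → H ≤ H1 → (H1 : ℝ) * Real.log M ^ B ≤ M →
    ∑ r ∈ range M, ‖SP (M - 1) (-((r : ℝ) / M))‖ * (‖FA (dset g D k) ((r : ℝ) / M)‖ *
      ‖FK H ((r : ℝ) / M) / H - FK H1 ((r : ℝ) / M) / H1‖) * Real.log M ^ A ≤ M * (dset g D k).card

/-- RD7: weighted counts, for every translate. -/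
def S_THETA : Prop := ∀ (g : ℕ) (δ : ℝ), 4 ≤ g → 0 ≤ δ → δ < 1 / 5 → ∀ A : ℕ, ∃ K k₀ : ℕ, ∀ k : ℕ, k₀ ≤ k →
  ∀ (D : ℕ → Finset ℕ) (F : ℕ → ℝ → ℝ), Maj g D F δ → ∀ b H : ℕ, b ≤ g ^ k → 1 ≤ H → H ≤ g ^ k →
    Real.log ((g ^ k : ℕ) : ℝ) ^ K ≤ H →
    |∑ s ∈ dset g D k, ∑ h ∈ Ioc 0 H, om (s + b + h) - (H : ℝ) * (dset g D k).card| * Real.log ((g ^ k : ℕ) : ℝ) ^ A ≤
      (H : ℝ) * (dset g D k).card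

/-- RD8: the digit sets of the theorem have majorants. -/
def S_MAJ : Prop := ∀ (θ : ℝ) (t : ℕ), 4 / 5 < θ → ∃ δ : ℝ, 0 ≤ δ ∧ δ < 1 / 5 ∧ ∃ g₀ : ℕ, 4 ≤ g₀ ∧ ∀ g : ℕ, g₀ ≤ g →
  ∀ D : ℕ → Finset ℕ, (∀ i, D i ⊆ range g) → (∀ i, (g : ℝ) ^ θ ≤ (D i).card) →
    (∀ i, ((D i).filter (fun d => d + 1 ∉ D i)).card ≤ t) → ∃ F : ℕ → ℝ → ℝ, Maj g D F δ

/-- `R(x, y)` -/
noncomputable def R (x y : ℝ) : ℝ :=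
  ((Nat.primeCounting ⌊x + y⌋₊ : ℝ) - Nat.primeCounting ⌊x⌋₊) / (y / Real.log x)

/-- RD9: the theorem. -/
def S_FIN : Prop := ∀ (θ : ℝ) (t : ℕ), 4 / 5 < θ → ∃ g₀ : ℕ, ∀ g : ℕ, g₀ ≤ g → ∀ ε : ℝ, 0 < ε → ∃ K : ℕ, ∀ k : ℕ, K ≤ k →
  ∀ D : ℕ → Finset ℕ, (∀ i < k, D i ⊆ range g) → (∀ i < k, (g : ℝ) ^ θ ≤ (D i).card) →
    (∀ i < k, ((D i).filter (fun d => d + 1 ∉ D i)).card ≤ t) →
    ∀ b : ℕ, 1 ≤ b → b ≤ g ^ k → ∀ y : ℝ, Real.log ((g : ℝ) ^ k) ^ K ≤ y → y ≤ (g : ℝ) ^ k →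
      |(∑ s ∈ dset g D k, R ((s + b : ℕ) : ℝ) y) / (dset g D k).card - 1| ≤ ε

end Pool.Agent.K1H84.RD
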