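import Mathlib
import Pool.Agent.K1H84.RD.Stm
import Pool.Agent.K1H10.RD.DSet

/-! The sets `dset` as sets of integers with given digits. -/

set_option autoImplicit false

namespace Pool.Agent.K1H84.RD

open Finset

/-- the integers below `g ^ k` with `i`-th digit in `D i` -/
def digs (g : ℕ) (D : ℕ → Finset ℕ) (k : ℕ) : Finset ℕ :=
  (range (g ^ k)).filter (fun s => ∀ i < k, s / g ^ i % g ∈ D i)

lemma digit_low {g k i s d : ℕ} (hg : 0 < g) (hi : i < k) : (s + d * g ^ k) / g ^ i % g = s / g ^ i % g := by
  have h1 : d * g ^ k = g ^ i * (g * (d * g ^ (k - i - 1))) := by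
    have : g ^ k = g ^ i * (g * g ^ (k - i - 1)) := by
      rw [← pow_succ', ← pow_add]
      congr 1
      omega
    rw [this]; ring
  rw [h1, Nat.add_mul_div_left _ _ (pow_pos hg i), Nat.add_mul_mod_self_left]

theorem dset_eq (g : ℕ) (D : ℕ → Finset ℕ) (hg : 2 ≤ g) (k : ℕ) (hD : ∀ i < k, D i ⊆ range g) :
    dset g D k = digs g D k := by
  have hg0 : 0 < g := by omega
  induction k with
  | zero =>
    ext s
    simp [dset, digs]
  | succ k ih =>
    have ih' := ih fun i hi => hD i (by omega)
    ext s
    rw [dset, mem_image]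
    constructor
    · rintro ⟨⟨s', d⟩, hx, rfl⟩
      rw [mem_product, ih', digs, mem_filter, mem_range] at hx
      obtain ⟨⟨h1, h2⟩, h3⟩ := hx
      have hd : d < g := mem_range.1 (hD k (by omega) h3)
      simp only at h1 h2 h3 ⊢
      rw [digs, mem_filter, mem_range]
      constructor
      · calc s' + d * g ^ k < g ^ k + d * g ^ k := by omega
          _ = (d + 1) * g ^ k := by ring
          _ ≤ g * g ^ k := Nat.mul_le_mul_right _ hd
          _ = g ^ (k + 1) := by rw [pow_succ]; ring
      · intro i hi
        rcases Nat.lt_succ_iff_lt_or_eq.1 hi with hlt | heq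
        · rw [digit_low hg0 hlt]
          exact h2 i hlt
        · subst heq
          rw [Nat.add_mul_div_right _ _ (pow_pos hg0 _), Nat.div_eq_of_lt h1, zero_add, Nat.mod_eq_of_lt hd]
          exact h3
    · intro hs
      rw [digs, mem_filter, mem_range] at hs
      obtain ⟨h1, h2⟩ := hs
      have hdec : s = s % g ^ k + (s / g ^ k) * g ^ k := by
        have := Nat.mod_add_div s (g ^ k)
        rw [mul_comm] at this
        exact this.symm
      refine ⟨(s % g ^ k, s / g ^ k), ?_, hdec.symm⟩
      have hd : s / g ^ k < g := by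
        rw [Nat.div_lt_iff_lt_mul (pow_pos hg0 k)]
        calc s < g ^ (k + 1) := h1
          _ = g * g ^ k := by rw [pow_succ]; ring
      rw [mem_product, ih', digs, mem_filter, mem_range]
      refine ⟨⟨Nat.mod_lt _ (pow_pos hg0 k), fun i hi => ?_⟩, ?_⟩
      · have h3 := h2 i (by omega)
        have h4 := digit_low (s := s % g ^ k) (d := s / g ^ k) hg0 hi
        rw [← hdec] at h4
        rw [← h4]
        exact h3
      · have h3 := h2 k (by omega)
        rwa [Nat.mod_eq_of_lt hd] at h3

end Pool.Agent.K1H84.RD
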